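import Mathlib

open scoped Matrix ContDiff

namespace Pool.NNS

/-- the coefficients `1, 1, ε, …, ε` -/
noncomputable def wt (ε : ℝ) {k : ℕ} (i : Fin k) : ℝ := if i.val < 2 then 1 else ε

/-- `X` is self-adjoint for the Hermitian form `h(a, b) = ∑ i, wt ε i * conj (a i) * b i`. -/
def IsSA {k : ℕ} (ε : ℝ) (X : Matrix (Fin k) (Fin k) ℂ) : Prop :=
  ∀ i j, (wt ε j : ℂ) * star (X j i) = wt ε i * X i j

/-- `P` is the projection, orthogonal for `h`, onto a complex two-plane on which `h` is positive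
definite. These `P` are the points of the two-plane Grassmannian: the compact one for `ε = 1`
(every two-plane), the complex hyperbolic one for `ε = -1` (`h` has signature `(2, m)`). -/
def IsPt {k : ℕ} (ε : ℝ) (P : Matrix (Fin k) (Fin k) ℂ) : Prop :=
  P * P = P ∧ P.rank = 2 ∧ IsSA ε P ∧ ∀ a : Fin k → ℂ, P *ᵥ a = a → (∃ i, a i ≠ 0) →
    0 < ∑ i, wt ε i * Complex.normSq (a i)

/-- the partial derivative `∂_i F` at `v` of a matrix-valued function -/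
noncomputable def pdM {k n : ℕ} (F : (Fin n → ℝ) → Matrix (Fin k) (Fin k) ℂ) (i : Fin n)
    (v : Fin n → ℝ) : Matrix (Fin k) (Fin k) ℂ :=
  fun a b => deriv (fun t => F (Function.update v i t) a b) (v i)

/-- `F` is a smooth immersion of `ℝ^n` into the Grassmannian. -/
def IsImm {k n : ℕ} (ε : ℝ) (F : (Fin n → ℝ) → Matrix (Fin k) (Fin k) ℂ) : Prop :=
  (∀ a b, ContDiff ℝ ∞ (fun v => F v a b)) ∧ (∀ v, IsPt ε (F v)) ∧
    ∀ (v X : Fin n → ℝ), (∀ a b, ∑ i, (X i : ℂ) * pdM F i v a b = 0) → ∀ i, X i = 0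

/-- The matrix `g_ij = s ε Re tr (∂_i F ∂_j F)` at `v` of the induced metric; `s ε Re tr (X Y)` is
the metric of the Grassmannian. -/
noncomputable def gram {k n : ℕ} (s ε : ℝ) (F : (Fin n → ℝ) → Matrix (Fin k) (Fin k) ℂ)
    (v : Fin n → ℝ) : Matrix (Fin n) (Fin n) ℝ :=
  fun i j => s * ε * (pdM F i v * pdM F j v).trace.re

/-- the partial derivative `∂_i h` at `v` of a real function -/
noncomputable def pd {n : ℕ} (i : Fin n) (h : (Fin n → ℝ) → ℝ) (v : Fin n → ℝ) : ℝ :=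
  deriv (fun t => h (Function.update v i t)) (v i)

/-- The Christoffel symbols `Γ^l_ij` at `v` of a metric with matrix `G`. -/
noncomputable def chr {n : ℕ} (G : (Fin n → ℝ) → Matrix (Fin n) (Fin n) ℝ) (l i j : Fin n)
    (v : Fin n → ℝ) : ℝ :=
  (∑ p, (G v)⁻¹ l p *
    (pd i (fun w => G w j p) v + pd j (fun w => G w i p) v - pd p (fun w => G w i j) v)) / 2

/-- The component `R^l` at `u` of the curvature `R(X, Y) Z`; `R(∂_i, ∂_j) ∂_q = ∑_l R^l_qij ∂_l`. -/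
noncomputable def curv {n : ℕ} (G : (Fin n → ℝ) → Matrix (Fin n) (Fin n) ℝ)
    (u X Y Z : Fin n → ℝ) (l : Fin n) : ℝ :=
  ∑ i, ∑ j, ∑ q, X i * Y j * Z q * (pd i (chr G l j q) u - pd j (chr G l i q) u +
    ∑ p, (chr G l i p u * chr G p j q u - chr G l j p u * chr G p i q u))

/-- `N` is a unit normal vector at `F u` of the hypersurface in the Grassmannian, and
`∑ i, ξ i ∂_i F = - J N`, where `J X = i (X P - P X)` at `P`. -/
def IsNR {k n : ℕ} (s ε : ℝ) (F : (Fin n → ℝ) → Matrix (Fin k) (Fin k) ℂ) (u : Fin n → ℝ)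
    (N : Matrix (Fin k) (Fin k) ℂ) (ξ : Fin n → ℝ) : Prop :=
  IsSA ε N ∧ F u * N + N * F u = N ∧ s * ε * (N * N).trace.re = 1 ∧
    (∀ i, (pdM F i u * N).trace.re = 0) ∧
    ∀ a b, ∑ i, (ξ i : ℂ) * pdM F i u a b = Complex.I * ((F u * N) a b - (N * F u) a b)

/-- The identity `R(X, Y) ξ = κ (η(Y) X - η(X) Y) + μ (η(Y) A X - η(X) A Y) +
ν (η(Y) B X - η(X) B Y)` for all tangent vectors `X`, `Y`, where `η(X) = g(X, ξ)`. -/
def Nullity {n : ℕ} (G : (Fin n → ℝ) → Matrix (Fin n) (Fin n) ℝ) (u ξ : Fin n → ℝ)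
    (κ μ ν : ℝ) (A B : (Fin n → ℝ) → Fin n → ℝ) : Prop :=
  ∀ X Y l, curv G u X Y ξ l =
    κ * ((Y ⬝ᵥ (G u *ᵥ ξ)) * X l - (X ⬝ᵥ (G u *ᵥ ξ)) * Y l) +
    μ * ((Y ⬝ᵥ (G u *ᵥ ξ)) * A X l - (X ⬝ᵥ (G u *ᵥ ξ)) * A Y l) +
    ν * ((Y ⬝ᵥ (G u *ᵥ ξ)) * B X l - (X ⬝ᵥ (G u *ᵥ ξ)) * B Y l)

end Pool.NNS
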