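import Pool.Agent.H67.NNS.Main0

open scoped Matrix Topology ContDiff Manifold ComplexOrder Matrix.Norms.Operator

namespace Pool.NNS

open Pool.Agent.H67.NN (Coord cv tgt cplxG D1 D2 trL trB trB_apply trL_apply trL_comm local_exists
  local_main eq_sum_cv fderiv_eq_sum fderiv_eq_sum_mat gramB BT differentiableAt_gram
  differentiableAt_christoffel christoffel riemann det_isUnit trB_pos fderiv_mem trB_sum_right)


section final

variable {m n : ℕ}

theorem main (hm : 3 ≤ m) (hn : n + 1 = 4 * m) {ε s : ℝ} (hε : ε = 1 ∨ ε = -1) (hs : 0 < s)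
    (F : (Fin n → ℝ) → Matrix (Fin (m + 2)) (Fin (m + 2)) ℂ) (hF : IsImm ε F) (u : Fin n → ℝ) :
    (∃ N ξ, IsNR s ε F u N ξ) ∧ ∀ N ξ, IsNR s ε F u N ξ →
      ∃ X Y : Fin n → ℝ, X ⬝ᵥ (gram s ε F u *ᵥ ξ) = 0 ∧ Y ⬝ᵥ (gram s ε F u *ᵥ ξ) = 0 ∧
        ∃ l, curv (gram s ε F) u X Y ξ l ≠ 0 := by
  have hε2 : ε ^ 2 = 1 := by
    rcases hε with h | h
    · rw [h]; norm_num
    · rw [h]; norm_num
  have hcε : 0 < s * ε * ε := by
    have : s * ε * ε = s := by
      rw [mul_assoc, ← sq, hε2, mul_one]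
    rw [this]
    exact hs
  obtain ⟨hsm, hpt, himm⟩ := hF
  have hFc : ContDiff ℝ ∞ F := contDiff_mat hsm
  have hFd : ∀ v, DifferentiableAt ℝ F v := fun v => hFc.contDiffAt.differentiableAt (by simp)
  have hpdM : ∀ i v, pdM F i v = D1 F i v := fun i v => pdM_eq (hFd v) i
  have hG : gram s ε F = fun v => Matrix.of fun i j => trL (s * ε) (D1 F i v * D1 F j v) := by
    funext v
    ext i j
    show s * ε * (pdM F i v * pdM F j v).trace.re = _
    rw [hpdM, hpdM]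
    rfl
  have h3 : ∀ v, ContDiffAt ℝ 3 F v := fun v =>
    hFc.contDiffAt.of_le (WithTop.coe_le_coe.mpr (le_top : (3 : ℕ∞) ≤ ⊤))
  have h1 : ∀ᶠ v in 𝓝 u, F v * F v = F v := Filter.Eventually.of_forall fun v => (hpt v).1
  have h2 : ∀ᶠ v in 𝓝 u, (F v)ᴴ * dg (m + 2) ε = dg (m + 2) ε * F v :=
    Filter.Eventually.of_forall fun v => isSA_iff.1 (hpt v).2.2.1
  have hr : (F u).rank = 2 := (hpt u).2.1
  have hH := posDef hε (hpt u)
  have hsum : ∀ X : Fin n → ℝ, fderiv ℝ F u X = ∑ i, X i • D1 F i u := fun X =>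
    fderiv_eq_sum_mat F u X
  have hsum' : ∀ (X : Fin n → ℝ) a b, (fderiv ℝ F u X) a b = ∑ i, (X i : ℂ) * pdM F i u a b := by
    intro X a b
    rw [hsum, Matrix.sum_apply]
    refine Finset.sum_congr rfl fun i _ => ?_
    rw [Matrix.smul_apply, hpdM]
    exact Complex.real_smul
  have hinj : Function.Injective (fderiv ℝ F u) := by
    rw [injective_iff_map_eq_zero]
    intro X hX
    funext i
    refine himm u X (fun a b => ?_) i
    rw [← hsum', hX]
    rfl
  have hcard : Fintype.card (Fin (m + 2)) = 2 + m := by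
    rw [Fintype.card_fin, add_comm]
  have hmem : ∀ x, fderiv ℝ F u x ∈ tgt (dg (m + 2) ε) (F u) := fderiv_mem (hFd u) h1 h2
  have hdet : IsUnit (gram s ε F u).det := det_isUnit hG (trB_pos hε2 hcε hH) hmem hinj
  have hGd : ∀ v i j, DifferentiableAt ℝ (fun w => gram s ε F w i j) v := by
    intro v i j
    exact gram_diff hG ((h3 v).of_le (by norm_num)) i j
  have hcd : ∀ l i j, DifferentiableAt ℝ (christoffel (gram s ε F) l i j) u := by
    intro l i j
    exact chr_diff (trL_comm (s * ε)) hG (h3 u) hdet l i j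
  have hcurv : ∀ X Y Z, Pool.Agent.H67.NN.curv (gram s ε F) u X Y Z =
      fun l => curv (gram s ε F) u X Y Z l := fun X Y Z =>
    funext fun l => (curv_eq hGd hcd X Y Z l).symm
  have hg : ∀ X Y : Fin n → ℝ, trB (s * ε) (fderiv ℝ F u X) (fderiv ℝ F u Y) =
      X ⬝ᵥ (gram s ε F u *ᵥ Y) := by
    intro X Y
    rw [hsum X, Pool.Agent.H67.NN.trB_sum_left]
    simp only [dotProduct, Matrix.mulVec]
    refine Finset.sum_congr rfl fun i _ => ?_
    rw [hsum Y, trB_sum_right]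
    congr 1
    refine Finset.sum_congr rfl fun j _ => ?_
    rw [mul_comm, hG]
    rfl
  constructor
  · obtain ⟨N, hN, ξ, hNN, hNS, hξ⟩ := local_exists hn hcard hε2 hcε (dg_conj ε) (dg_sq hε2)
      (hFd u) h1 h2 hr hH hinj
    refine ⟨N, ξ, isSA_iff.2 hN.1, hN.2, hNN, fun i => ?_, fun a b => ?_⟩
    · have h4 := hNS (Pi.single i 1)
      rw [trB_apply, trL_apply] at h4
      have h5 : s * ε ≠ 0 := by
        intro h0
        rw [h0, zero_mul] at hcε
        exact lt_irrefl _ hcε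
      rw [hpdM]
      exact (mul_eq_zero.1 h4).resolve_left h5
    · rw [← hsum', hξ]
      unfold cplxG
      rw [Matrix.neg_apply, Matrix.smul_apply, Matrix.sub_apply, smul_eq_mul]
      ring
  · rintro N ξ ⟨hN1, hN2, hN3, hN4, hN5⟩
    by_contra hcon
    push Not at hcon
    have hNt : N ∈ tgt (dg (m + 2) ε) (F u) := ⟨isSA_iff.1 hN1, hN2⟩
    refine local_main (G := gram s ε F) (c := s * ε) (f := F) (u := u) hG hn hm hcard
      hε2 hcε (dg_conj ε) (dg_sq hε2) (h3 u) h1 h2 hr hH hinj (N := N) hNt ?_ ?_ (ξ := ξ) ?_ ?_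
    · rw [trB_apply, trL_apply]
      exact hN3
    · intro x
      rw [hsum, Pool.Agent.H67.NN.trB_sum_left]
      refine Finset.sum_eq_zero fun i _ => ?_
      rw [trB_apply, trL_apply, ← hpdM, hN4 i, mul_zero, mul_zero]
    · ext a b
      rw [hsum', hN5 a b]
      unfold cplxG
      rw [Matrix.neg_apply, Matrix.smul_apply, Matrix.sub_apply, smul_eq_mul]
      ring
    · intro x y hx hy
      rw [hg] at hx hy
      rw [hcurv]
      funext l
      exact hcon x y hx hy l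

/-- the main theorem -/
theorem noNullity (hm : 3 ≤ m) (hn : n + 1 = 4 * m) {ε s : ℝ} (hε : ε = 1 ∨ ε = -1) (hs : 0 < s)
    (F : (Fin n → ℝ) → Matrix (Fin (m + 2)) (Fin (m + 2)) ℂ) (hF : IsImm ε F) (u : Fin n → ℝ) :
    (∃ N ξ, IsNR s ε F u N ξ) ∧ ∀ N ξ, IsNR s ε F u N ξ →
      ∀ (κ μ ν : ℝ) (A B : (Fin n → ℝ) → Fin n → ℝ), ¬ Nullity (gram s ε F) u ξ κ μ ν A B := by
  obtain ⟨h1, h2⟩ := main hm hn hε hs F hF u
  refine ⟨h1, ?_⟩
  intro N ξ hN κ μ ν A B hcon
  obtain ⟨X, Y, hX, hY, l, hl⟩ := h2 N ξ hN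
  apply hl
  rw [hcon X Y l, hX, hY]
  ring

end final

end Pool.NNS
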