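import Pool.Agent.H67.NNS.Proof

open scoped Matrix Topology ContDiff Manifold ComplexOrder Matrix.Norms.Operator

namespace Pool.NNS

open Pool.Agent.H67.NN (Coord cv tgt cplxG D1 D2 trL trB trB_apply trL_apply trL_comm local_exists
  local_main eq_sum_cv fderiv_eq_sum fderiv_eq_sum_mat gramB BT differentiableAt_gram
  differentiableAt_christoffel christoffel riemann det_isUnit trB_pos fderiv_mem trB_sum_right)

/-! ### Partial derivatives -/

section pder

variable {n : ℕ}

lemma deriv_update {E : Type*} [NormedAddCommGroup E] [NormedSpace ℝ E] {h : (Fin n → ℝ) → E}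
    {v : Fin n → ℝ} (hh : DifferentiableAt ℝ h v) (i : Fin n) :
    deriv (fun t => h (Function.update v i t)) (v i) = fderiv ℝ h v (Pi.single i 1) := by
  have h1 : HasFDerivAt h (fderiv ℝ h v) (Function.update v i (v i)) := by
    rw [Function.update_eq_self]
    exact hh.hasFDerivAt
  exact (h1.comp_hasDerivAt (v i) (hasDerivAt_update v i (v i))).deriv

lemma pd_eq {h : (Fin n → ℝ) → ℝ} {v : Fin n → ℝ} (hh : DifferentiableAt ℝ h v) (i : Fin n) :
    pd i h v = Pool.Agent.H67.NN.pd i h v :=
  deriv_update hh i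

variable {k : ℕ}

lemma contDiff_mat {F : (Fin n → ℝ) → Matrix (Fin k) (Fin k) ℂ}
    (h : ∀ a b, ContDiff ℝ ∞ (fun v => F v a b)) : ContDiff ℝ ∞ F := by
  let L : (Fin k → Fin k → ℂ) →ₗ[ℝ] Matrix (Fin k) (Fin k) ℂ :=
    { toFun := fun g => Matrix.of g
      map_add' := fun _ _ => rfl
      map_smul' := fun _ _ => rfl }
  have h1 : ContDiff ℝ ∞ (fun v => fun a b => F v a b) := by
    rw [contDiff_pi]
    intro a
    rw [contDiff_pi]
    exact h a
  exact L.toContinuousLinearMap.contDiff.comp h1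

lemma pdM_eq {F : (Fin n → ℝ) → Matrix (Fin k) (Fin k) ℂ} {v : Fin n → ℝ}
    (hF : DifferentiableAt ℝ F v) (i : Fin n) : pdM F i v = D1 F i v := by
  ext a b
  let L : Matrix (Fin k) (Fin k) ℂ →ₗ[ℝ] ℂ :=
    { toFun := fun g => g a b
      map_add' := fun _ _ => rfl
      map_smul' := fun _ _ => rfl }
  have h1 : HasFDerivAt (fun v => L.toContinuousLinearMap (F v))
      (L.toContinuousLinearMap.comp (fderiv ℝ F v)) v :=
    L.toContinuousLinearMap.hasFDerivAt.comp v hF.hasFDerivAt
  have h2 := deriv_update h1.differentiableAt i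
  rw [h1.fderiv] at h2
  exact h2

section ring

variable {V : Type*} [NormedRing V] [NormedAlgebra ℝ V] [FiniteDimensional ℝ V]
  {τ : V →ₗ[ℝ] ℝ} {f : Coord n → V} {u : Coord n} {G : Coord n → Matrix (Fin n) (Fin n) ℝ}

lemma gram_diff (hG : G = fun v => Matrix.of fun i j => τ (D1 f i v * D1 f j v))
    (hf : ContDiffAt ℝ 2 f u) (i j : Fin n) : DifferentiableAt ℝ (fun w => G w i j) u := by
  have h : G = gramB (BT τ) f := hG
  subst h
  exact differentiableAt_gram hf i j

lemma chr_diff (hτ : ∀ x y, τ (x * y) = τ (y * x))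
    (hG : G = fun v => Matrix.of fun i j => τ (D1 f i v * D1 f j v))
    (hf : ContDiffAt ℝ 3 f u) (hdet : IsUnit (G u).det) (l i j : Fin n) :
    DifferentiableAt ℝ (christoffel G l i j) u := by
  have h : G = gramB (BT τ) f := hG
  subst h
  exact differentiableAt_christoffel (B := BT τ) hτ hf hdet l i j

end ring

/-- the Christoffel symbols and the curvature in the two conventions for partial derivatives -/
lemma chr_eq {G : (Fin n → ℝ) → Matrix (Fin n) (Fin n) ℝ} {v : Fin n → ℝ}
    (hG : ∀ i j, DifferentiableAt ℝ (fun w => G w i j) v) (l i j : Fin n) :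
    chr G l i j v = christoffel G l i j v := by
  unfold chr christoffel
  rw [div_eq_inv_mul, one_div]
  congr 1
  refine Finset.sum_congr rfl fun p _ => ?_
  rw [pd_eq (hG j p), pd_eq (hG i p), pd_eq (hG i j)]

lemma curv_eq {G : (Fin n → ℝ) → Matrix (Fin n) (Fin n) ℝ} {u : Fin n → ℝ}
    (hG : ∀ v i j, DifferentiableAt ℝ (fun w => G w i j) v)
    (hc : ∀ l i j, DifferentiableAt ℝ (christoffel G l i j) u) (X Y Z : Fin n → ℝ) (l : Fin n) :
    curv G u X Y Z l = Pool.Agent.H67.NN.curv G u X Y Z l := by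
  have h1 : ∀ l i j, chr G l i j = christoffel G l i j := fun l i j =>
    funext fun v => chr_eq (hG v) l i j
  unfold curv Pool.Agent.H67.NN.curv riemann
  refine Finset.sum_congr rfl fun i _ => Finset.sum_congr rfl fun j _ =>
    Finset.sum_congr rfl fun q _ => ?_
  simp only [h1]
  rw [pd_eq (hc l j q), pd_eq (hc l i q)]

end pder

end Pool.NNS
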