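import Pool.Agent.H67.NN.Proof
import Pool.Agent.H67.NNS.Defs

open scoped Matrix Topology ContDiff Manifold ComplexOrder

namespace Pool.NNS

open Pool.Agent.H67.NN (Coord cv tgt cplxG D1 D2 trL trB trB_apply trL_apply trL_comm local_exists
  local_main eq_sum_cv fderiv_eq_sum fderiv_eq_sum_mat hf hf_mul_left hf_add_right hf_smul_right
  hf_smul_left hf_conj)

/-! ### The Hermitian form -/

section herm

variable {k : ℕ}

/-- the diagonal matrix of the form -/
noncomputable def dg (k : ℕ) (ε : ℝ) : Matrix (Fin k) (Fin k) ℂ :=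
  Matrix.diagonal fun i => (wt ε i : ℂ)

lemma dg_conj (ε : ℝ) : (dg k ε)ᴴ = dg k ε := by
  unfold dg
  rw [Matrix.diagonal_conjTranspose]
  congr 1
  ext i
  simp

lemma wt_sq {ε : ℝ} (hε : ε ^ 2 = 1) (i : Fin k) : wt ε i * wt ε i = 1 := by
  unfold wt
  split_ifs
  · norm_num
  · rw [← sq, hε]

lemma dg_sq {ε : ℝ} (hε : ε ^ 2 = 1) : dg k ε * dg k ε = 1 := by
  unfold dg
  rw [Matrix.diagonal_mul_diagonal, ← Matrix.diagonal_one]
  congr 1
  ext i
  rw [← Complex.ofReal_mul, wt_sq hε, Complex.ofReal_one]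

lemma isSA_iff {ε : ℝ} {X : Matrix (Fin k) (Fin k) ℂ} :
    IsSA ε X ↔ Xᴴ * dg k ε = dg k ε * X := by
  unfold IsSA dg
  constructor
  · intro h
    ext i j
    rw [Matrix.mul_diagonal, Matrix.diagonal_mul, Matrix.conjTranspose_apply, ← h i j]
    rw [mul_comm]
  · intro h i j
    have := congrFun (congrFun h i) j
    rw [Matrix.mul_diagonal, Matrix.diagonal_mul, Matrix.conjTranspose_apply] at this
    rw [← this, mul_comm]

lemma hf_self (ε : ℝ) (a : Fin k → ℂ) :
    hf (dg k ε) a a = ((∑ i, wt ε i * Complex.normSq (a i) : ℝ) : ℂ) := by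
  unfold hf dg
  rw [Complex.ofReal_sum]
  refine Finset.sum_congr rfl fun i _ => ?_
  rw [Matrix.mulVec_diagonal, Pi.star_apply, Complex.ofReal_mul, Complex.normSq_eq_conj_mul_self]
  change (starRingEnd ℂ) (a i) * ((wt ε i : ℂ) * a i) = _
  ring

/-- the form is definite on the kernel -/
lemma ker_pos {m : ℕ} {ε : ℝ} (hε : ε = 1 ∨ ε = -1) {P : Matrix (Fin (m + 2)) (Fin (m + 2)) ℂ}
    (hP : IsPt ε P) {z : Fin (m + 2) → ℂ} (hz : P *ᵥ z = 0) (hz0 : z ≠ 0) :
    0 < ε * ∑ i, wt ε i * Complex.normSq (z i) := by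
  obtain ⟨hP2, hr, hsa, hpos⟩ := hP
  have hPη : Pᴴ * dg (m + 2) ε = dg (m + 2) ε * P := isSA_iff.1 hsa
  rcases hε with rfl | rfl
  · rw [one_mul]
    obtain ⟨i, hi⟩ := Function.ne_iff.1 hz0
    refine Finset.sum_pos' (fun j _ => ?_) ⟨i, Finset.mem_univ i, ?_⟩
    · have : wt (1 : ℝ) j = 1 := by unfold wt; split_ifs <;> rfl
      rw [this, one_mul]
      exact Complex.normSq_nonneg _
    · have : wt (1 : ℝ) i = 1 := by unfold wt; split_ifs <;> rfl
      rw [this, one_mul]
      exact Complex.normSq_pos.2 hi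
  · by_contra hcon
    have hq : 0 ≤ ∑ i, wt (-1) i * Complex.normSq (z i) := by linarith
    -- a vector with the first two coordinates zero
    let L : (LinearMap.range P.mulVecLin) × ℂ →ₗ[ℂ] (Fin 2 → ℂ) :=
      { toFun := fun y i => y.1.1 (Fin.castLE (by omega) i) + y.2 * z (Fin.castLE (by omega) i)
        map_add' := by
          intro a b
          funext i
          simp only [Prod.fst_add, Prod.snd_add, Submodule.coe_add, Pi.add_apply]
          ring
        map_smul' := by
          intro c a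
          funext i
          simp only [Prod.smul_fst, Prod.smul_snd, Submodule.coe_smul, Pi.smul_apply, smul_eq_mul,
            RingHom.id_apply]
          ring }
    obtain ⟨y, hy, hy0⟩ : ∃ y ∈ LinearMap.ker L, y ≠ 0 := by
      apply Submodule.exists_mem_ne_zero_of_ne_bot
      apply LinearMap.ker_ne_bot_of_finrank_lt
      rw [Module.finrank_prod, Module.finrank_self, Module.finrank_fin_fun]
      have : Module.finrank ℂ (LinearMap.range P.mulVecLin) = 2 := hr
      omega
    obtain ⟨⟨y1, hy1⟩, t⟩ := y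
    have hPy : P *ᵥ y1 = y1 := by
      obtain ⟨x, rfl⟩ := hy1
      rw [Matrix.mulVecLin_apply, Matrix.mulVec_mulVec, hP2]
    obtain ⟨b, hb⟩ : ∃ b : Fin (m + 2) → ℂ, b = y1 + t • z := ⟨_, rfl⟩
    have hb2 : ∀ i : Fin (m + 2), i.val < 2 → b i = 0 := by
      intro i hi
      have h1 := congrFun (LinearMap.mem_ker.1 hy) ⟨i.val, hi⟩
      rw [hb]
      exact h1
    have hb0 : b ≠ 0 := by
      intro h0
      have h1 : P *ᵥ b = y1 := by
        rw [hb, Matrix.mulVec_add, Matrix.mulVec_smul, hz, smul_zero, add_zero, hPy]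
      have h2 : y1 = 0 := by rw [← h1, h0, Matrix.mulVec_zero]
      have h3 : t • z = 0 := by rw [← h0, hb, h2, zero_add]
      have h4 : t = 0 := (smul_eq_zero.1 h3).resolve_right hz0
      apply hy0
      ext1
      · exact Subtype.ext h2
      · exact h4
    have hneg : ∑ i, wt (-1) i * Complex.normSq (b i) < 0 := by
      obtain ⟨i, hi⟩ := Function.ne_iff.1 hb0
      have hi2 : ¬ i.val < 2 := fun h => hi (hb2 i h)
      have h1 : 0 < ∑ j, -(wt (-1) j * Complex.normSq (b j)) := by
        refine Finset.sum_pos' (fun j _ => ?_) ⟨i, Finset.mem_univ i, ?_⟩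
        · by_cases hj : j.val < 2
          · rw [hb2 j hj]
            simp
          · unfold wt
            rw [if_neg hj]
            have := Complex.normSq_nonneg (b j)
            linarith
        · unfold wt
          rw [if_neg hi2]
          have := Complex.normSq_pos.2 hi
          linarith
      rw [Finset.sum_neg_distrib] at h1
      linarith
    have hexp : hf (dg (m + 2) (-1)) b b = hf (dg (m + 2) (-1)) y1 y1 +
        (starRingEnd ℂ t * t) * hf (dg (m + 2) (-1)) z z := by
      have hyz : hf (dg (m + 2) (-1)) y1 z = 0 := by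
        rw [← hPy, hf_mul_left hPη, hz]
        simp [hf]
      have hzy : hf (dg (m + 2) (-1)) z y1 = 0 := by
        rw [← hf_conj (dg_conj (-1)) y1 z, hyz, map_zero]
      have hadd : ∀ a c d : Fin (m + 2) → ℂ, hf (dg (m + 2) (-1)) (a + c) d =
          hf (dg (m + 2) (-1)) a d + hf (dg (m + 2) (-1)) c d := by
        intro a c d
        simp [hf, add_dotProduct]
      rw [hb, hadd, hf_add_right, hf_add_right, hf_smul_left, hf_smul_left, hf_smul_right,
        hf_smul_right, hyz, hzy]
      ring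
    rw [hf_self, hf_self, hf_self, ← Complex.normSq_eq_conj_mul_self, ← Complex.ofReal_mul,
      ← Complex.ofReal_add] at hexp
    have hexp' := Complex.ofReal_injective hexp
    have hy1pos : 0 ≤ ∑ i, wt (-1) i * Complex.normSq (y1 i) := by
      by_cases h0 : ∃ i, y1 i ≠ 0
      · exact (hpos y1 hPy h0).le
      · push Not at h0
        refine Finset.sum_nonneg fun i _ => ?_
        rw [h0 i]
        simp
    have h5 : 0 ≤ Complex.normSq t * ∑ i, wt (-1) i * Complex.normSq (z i) :=
      mul_nonneg (Complex.normSq_nonneg _) hq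
    linarith

lemma posDef {m : ℕ} {ε : ℝ} (hε : ε = 1 ∨ ε = -1)
    {P : Matrix (Fin (m + 2)) (Fin (m + 2)) ℂ} (hP : IsPt ε P) :
    (dg (m + 2) ε * P + (ε : ℂ) • (dg (m + 2) ε * (1 - P))).PosDef := by
  have hP' := hP
  obtain ⟨hP2, hr, hsa, hpos⟩ := hP
  have hPη : Pᴴ * dg (m + 2) ε = dg (m + 2) ε * P := isSA_iff.1 hsa
  rw [Matrix.posDef_iff_dotProduct_mulVec]
  have hh1 : (dg (m + 2) ε * P)ᴴ = dg (m + 2) ε * P := by
    rw [Matrix.conjTranspose_mul, dg_conj, hPη]
  have hh2 : (dg (m + 2) ε * (1 - P))ᴴ = dg (m + 2) ε * (1 - P) := by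
    rw [Matrix.conjTranspose_mul, dg_conj, Matrix.conjTranspose_sub, Matrix.conjTranspose_one,
      sub_mul, one_mul, hPη, mul_sub, mul_one]
  constructor
  · unfold Matrix.IsHermitian
    rw [Matrix.conjTranspose_add, Matrix.conjTranspose_smul, hh1, hh2]
    simp
  · intro x hx
    have hPη' : (1 - P)ᴴ * dg (m + 2) ε = dg (m + 2) ε * (1 - P) := by
      rw [Matrix.conjTranspose_sub, Matrix.conjTranspose_one, sub_mul, one_mul, hPη, mul_sub,
        mul_one]
    obtain ⟨y, hy⟩ : ∃ y, y = P *ᵥ x := ⟨_, rfl⟩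
    obtain ⟨z, hz⟩ : ∃ z, z = (1 - P) *ᵥ x := ⟨_, rfl⟩
    have hxyz : x = y + z := by
      rw [hy, hz, ← Matrix.add_mulVec]
      simp
    have hPy : P *ᵥ y = y := by rw [hy, Matrix.mulVec_mulVec, hP2]
    have hPz : P *ᵥ z = 0 := by
      rw [hz, Matrix.mulVec_mulVec, mul_sub, mul_one, hP2, sub_self, Matrix.zero_mulVec]
    have hQz : (1 - P) *ᵥ z = z := by rw [Matrix.sub_mulVec, Matrix.one_mulVec, hPz, sub_zero]
    have e1 : star x ⬝ᵥ ((dg (m + 2) ε * P) *ᵥ x) = hf (dg (m + 2) ε) y y := by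
      have h1 : hf (dg (m + 2) ε) x y = hf (dg (m + 2) ε) y y := by
        conv_rhs => rw [hy]
        rw [hf_mul_left hPη, ← hy, hPy]
      rw [← h1, ← Matrix.mulVec_mulVec, ← hy]
      rfl
    have e2 : star x ⬝ᵥ ((dg (m + 2) ε * (1 - P)) *ᵥ x) = hf (dg (m + 2) ε) z z := by
      have h1 : hf (dg (m + 2) ε) x z = hf (dg (m + 2) ε) z z := by
        conv_rhs => rw [hz]
        rw [hf_mul_left hPη', ← hz, hQz]
      rw [← h1, ← Matrix.mulVec_mulVec, ← hz]
      rfl
    rw [Matrix.add_mulVec, Matrix.smul_mulVec, dotProduct_add, dotProduct_smul, e1, e2, hf_self,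
      hf_self, smul_eq_mul, ← Complex.ofReal_mul, ← Complex.ofReal_add]
    rw [← Complex.ofReal_zero, Complex.real_lt_real]
    have hy0 : 0 ≤ ∑ i, wt ε i * Complex.normSq (y i) := by
      by_cases h0 : ∃ i, y i ≠ 0
      · exact (hpos y hPy h0).le
      · push Not at h0
        refine Finset.sum_nonneg fun i _ => ?_
        rw [h0 i]
        simp
    have hz0 : 0 ≤ ε * ∑ i, wt ε i * Complex.normSq (z i) := by
      by_cases h0 : z = 0
      · rw [h0]
        simp
      · exact (ker_pos hε hP' hPz h0).le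
    by_cases h0 : z = 0
    · have hy1 : ∃ i, y i ≠ 0 := by
        by_contra hc
        push Not at hc
        apply hx
        rw [hxyz, h0, add_zero]
        exact funext hc
      have := hpos y hPy hy1
      linarith
    · have := ker_pos hε hP' hPz h0
      linarith

end herm

end Pool.NNS
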